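import Pool.Agent.N204.HR.Stm

/-!
# Project HR (helper204), task WC (helper232): multiplicative families in coordinates
-/

set_option linter.unusedSectionVars false

open CategoryTheory AlgebraicGeometry TensorProduct

universe u

namespace Pool.Agent.N232.HR

open Module Matrix
open Pool.Agent.H914 Pool.Agent.H914.VarClass Pool.Agent.H914.VarClass.Obj
  Pool.Agent.H914.WeilCohomology
open Pool.Agent.Y133.Half (pw pfst psnd wb wb_zero wb_succ)
open Pool.Agent.N996.BP (kp kp_apply)
open Pool.Agent.N996.BP.Geo (sum_snoc kp_snoc)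
open Pool.Agent.N211.BT (wb_snoc')
open Pool.Agent.N204.HR

theorem wc : S_WC.{u} := by
  intro k _ 𝒱 ops W X τ U hadd hsmul hmul hfst hsnd ι _ _ e n x
  have h0 : ∀ n, U n 0 = 0 := fun n => by
    have h := hadd n 0 0
    rw [add_zero] at h
    exact left_eq_add.1 h
  have hsum : ∀ n (α : Type) (s : Finset α) (f : α → W.H (pw X n)),
      U n (∑ i ∈ s, f i) = ∑ i ∈ s, U n (f i) := by
    classical
    intro n α s f
    induction s using Finset.induction_on with
    | empty => rw [Finset.sum_empty, Finset.sum_empty, h0]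
    | insert a s ha ih => rw [Finset.sum_insert ha, Finset.sum_insert ha, hadd, ih]
  have h1 : ∀ j : ι, U 0 (e j) = ∑ i, mat e (U 0) i j • e i := fun j =>
    (e.sum_repr (U 0 (e j))).symm
  have hk : ∀ (g : Matrix ι ι W.K) (i : ι) (w : Fin 1 → ι),
      kp (Fin 1) g ((Equiv.funUnique (Fin 1) ι).symm i) w = g i (w 0) := by
    intro g i w
    rw [kp_apply, Fin.prod_univ_one]
    rfl
  have key : ∀ n (w : Fin (n + 1) → ι), U n (wb e n w) =
      ∑ v, kp (Fin (n + 1)) (mat e (U 0)) v w • wb e n v := by
    intro n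
    induction n with
    | zero =>
      intro w
      rw [wb_zero, ← Equiv.sum_comp (Equiv.funUnique (Fin 1) ι).symm]
      refine (h1 (w 0)).trans (Finset.sum_congr rfl fun i _ => ?_)
      rw [wb_zero]
      exact congrArg (fun c => c • e i) (hk (mat e (U 0)) i w).symm
    | succ n ih =>
      intro w
      rw [wb_succ, hmul, hfst, hsnd, ih, h1, map_sum, map_sum, Finset.sum_mul_sum, sum_snoc]
      refine Finset.sum_congr rfl fun v _ => Finset.sum_congr rfl fun x _ => ?_
      rw [map_smul, map_smul, smul_mul_smul_comm, ← wb_snoc', kp_snoc]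
  have h2 : x = ∑ w, (wb e n).equivFun x w • wb e n w := ((wb e n).sum_equivFun x).symm
  have h3 : U n x = ∑ v, (kp (Fin (n + 1)) (mat e (U 0)) *ᵥ
      fun w => τ ((wb e n).equivFun x w)) v • wb e n v := by
    conv_lhs => rw [h2]
    rw [hsum]
    simp only [hsmul, key, Finset.smul_sum, smul_smul]
    rw [Finset.sum_comm]
    refine Finset.sum_congr rfl fun v _ => ?_
    rw [← Finset.sum_smul]
    congr 1
    refine Finset.sum_congr rfl fun w _ => ?_
    rw [mul_comm]
  rw [h3, ← Basis.equivFun_symm_apply, LinearEquiv.apply_symm_apply]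

end Pool.Agent.N232.HR
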